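import Pool.Agent.N437.SQ.Stm

/-!
# There is a good choice (leaf F5 of the project SQ)
-/

set_option autoImplicit false

namespace Pool.Agent.N645.SQ

open Finset Pool.Agent.N437.SQ

theorem M_mul_D (q L i : ℕ) (hi : i ≤ L) : M q L i * D q i = q ^ (3 ^ L) := by
  unfold M D
  rw [← pow_add, Nat.sub_add_cancel (Nat.pow_le_pow_right (by norm_num) hi)]

theorem D_ge (q i : ℕ) (hq : 2 ≤ q) : 2 ^ (i + 1) ≤ D q i := by
  unfold D
  calc 2 ^ (i + 1) ≤ 2 ^ (3 ^ i) :=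
        Nat.pow_le_pow_right (by norm_num) (Nat.lt_pow_self (by norm_num))
    _ ≤ q ^ (3 ^ i) := Nat.pow_le_pow_left hq _

theorem D_ge_q (q i : ℕ) (hq : 1 ≤ q) : q ≤ D q i := by
  unfold D
  calc q = q ^ 1 := (pow_one q).symm
    _ ≤ q ^ (3 ^ i) := Nat.pow_le_pow_right hq (Nat.one_le_pow _ _ (by norm_num))

theorem half_sum (L : ℕ) : ∑ i ∈ range L, ((1 : ℝ) / 2) ^ (i + 1) = 1 - (1 / 2) ^ L := by
  induction L with
  | zero => simp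
  | succ L ih =>
    rw [sum_range_succ, ih]
    ring

theorem quarter_sum (n : ℕ) : ∑ s ∈ Icc 1 n, ((1 : ℝ) / 4) ^ s = (1 - (1 / 4) ^ n) / 3 := by
  induction n with
  | zero => simp
  | succ n ih =>
    rw [sum_Icc_succ_top (by omega), ih]
    ring

theorem card_Lay (q L : ℕ) (hq : 2 ≤ q) : Fintype.card (Lay q L) ≤ q ^ (3 ^ L) := by
  have h1 : Fintype.card (Lay q L) = ∑ i ∈ range L, M q L i := by
    rw [Fintype.card_sigma, Finset.sum_range]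
    simp only [Fintype.card_fin]
  obtain ⟨N, hN⟩ : ∃ N : ℝ, N = ((q ^ (3 ^ L) : ℕ) : ℝ) := ⟨_, rfl⟩
  have hN0 : 0 ≤ N := by
    rw [hN]
    exact Nat.cast_nonneg _
  have h2 : ((∑ i ∈ range L, M q L i : ℕ) : ℝ) ≤ N := by
    rw [Nat.cast_sum]
    calc ∑ i ∈ range L, (M q L i : ℝ) ≤ ∑ i ∈ range L, N * ((1 : ℝ) / 2) ^ (i + 1) := by
          refine sum_le_sum fun i hi => ?_
          have hMD : (M q L i : ℝ) * D q i = N := by
            rw [hN, ← Nat.cast_mul, M_mul_D q L i (mem_range.1 hi).le]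
          have hD : ((2 : ℝ)) ^ (i + 1) ≤ D q i := by exact_mod_cast D_ge q i hq
          have hM : (0 : ℝ) ≤ M q L i := Nat.cast_nonneg _
          have h3 : (M q L i : ℝ) * 2 ^ (i + 1) ≤ N := by
            rw [← hMD]
            exact mul_le_mul_of_nonneg_left hD hM
          rw [one_div, inv_pow, ← div_eq_mul_inv, le_div_iff₀ (by positivity)]
          exact h3
      _ = N * (1 - (1 / 2) ^ L) := by rw [← mul_sum, half_sum]
      _ ≤ N := by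
          have : (0 : ℝ) ≤ (1 / 2) ^ L := by positivity
          nlinarith
  rw [h1]
  rw [hN] at h2
  exact_mod_cast h2

theorem s_le (q L i s : ℕ) (hq : 1 ≤ q) (hi : i ≤ L) (h : D q i ^ 2 * s ≤ q ^ (3 ^ L)) :
    (s : ℝ) ≤ Real.sqrt ((s : ℝ) / ((q ^ (3 ^ L) : ℕ) : ℝ)) * M q L i := by
  have hMD := M_mul_D q L i hi
  have hD0 : 0 < D q i := lt_of_lt_of_le (by omega) (D_ge_q q i hq)
  have hN0 : 0 < q ^ (3 ^ L) := Nat.pow_pos (by omega)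
  have h1 : s * q ^ (3 ^ L) ≤ M q L i ^ 2 := by
    have h2 : (s * q ^ (3 ^ L)) * D q i ^ 2 ≤ M q L i ^ 2 * D q i ^ 2 := by
      calc s * q ^ (3 ^ L) * D q i ^ 2 = (D q i ^ 2 * s) * q ^ (3 ^ L) := by ring
        _ ≤ q ^ (3 ^ L) * q ^ (3 ^ L) := Nat.mul_le_mul_right _ h
        _ = (M q L i * D q i) * (M q L i * D q i) := by rw [hMD]
        _ = M q L i ^ 2 * D q i ^ 2 := by ring
    exact Nat.le_of_mul_le_mul_right h2 (by positivity)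
  have hN : (0 : ℝ) < ((q ^ (3 ^ L) : ℕ) : ℝ) := by exact_mod_cast hN0
  have h3 : (s : ℝ) * ((q ^ (3 ^ L) : ℕ) : ℝ) ≤ (M q L i : ℝ) ^ 2 := by
    rw [← Nat.cast_mul, ← Nat.cast_pow]
    exact Nat.cast_le.2 h1
  have h4 : (s : ℝ) ^ 2 ≤ (s : ℝ) / ((q ^ (3 ^ L) : ℕ) : ℝ) * (M q L i : ℝ) ^ 2 := by
    rw [div_mul_eq_mul_div, le_div_iff₀ hN]
    have hs : (0 : ℝ) ≤ s := Nat.cast_nonneg s
    nlinarith
  calc (s : ℝ) = Real.sqrt ((s : ℝ) ^ 2) := (Real.sqrt_sq (Nat.cast_nonneg s)).symm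
    _ ≤ Real.sqrt ((s : ℝ) / ((q ^ (3 ^ L) : ℕ) : ℝ) * (M q L i : ℝ) ^ 2) := Real.sqrt_le_sqrt h4
    _ = _ := by rw [Real.sqrt_mul (by positivity), Real.sqrt_sq (Nat.cast_nonneg _)]

/-- the ratio is at most one -/
theorem r_le (q L C s : ℕ) (hq : 1 ≤ q) (hqC : 2 * C ≤ q) (hs : q ^ 2 * s ≤ q ^ (3 ^ L)) :
    2 * (C : ℝ) * Real.sqrt ((s : ℝ) / ((q ^ (3 ^ L) : ℕ) : ℝ)) ≤ 1 := by
  have hN0 : 0 < q ^ (3 ^ L) := Nat.pow_pos (by omega)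
  have hN : (0 : ℝ) < ((q ^ (3 ^ L) : ℕ) : ℝ) := by exact_mod_cast hN0
  have hq0 : (0 : ℝ) < q := by exact_mod_cast hq
  have h1 : (q : ℝ) ^ 2 * s ≤ ((q ^ (3 ^ L) : ℕ) : ℝ) := by
    rw [← Nat.cast_pow, ← Nat.cast_mul]
    exact Nat.cast_le.2 hs
  have h2 : Real.sqrt ((s : ℝ) / ((q ^ (3 ^ L) : ℕ) : ℝ)) ≤ 1 / q := by
    rw [Real.sqrt_le_left (by positivity)]
    rw [div_le_iff₀ hN, div_pow, one_pow, one_div, ← div_eq_inv_mul, le_div_iff₀ (by positivity)]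
    linarith
  have h3 : 2 * (C : ℝ) ≤ q := by exact_mod_cast hqC
  calc 2 * (C : ℝ) * Real.sqrt ((s : ℝ) / ((q ^ (3 ^ L) : ℕ) : ℝ)) ≤ q * (1 / q) :=
        mul_le_mul h3 h2 (Real.sqrt_nonneg _) hq0.le
    _ = 1 := by field_simp

theorem bad_card (h1 : S_F1) (h2 : S_F2) (C q L s : ℕ) (hq : 1 ≤ q) (hqC : 2 * C ≤ q)
    (A : Finset (Fin (q ^ (3 ^ L)))) (B : Finset (Lay q L)) (hA : A.card = s)
    (hB : B.card ≤ 2 * C * s) (hs : q ^ 2 * s ≤ q ^ (3 ^ L)) :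
    (((univ : Finset (Fin (q ^ (3 ^ L)) → Psi q L)).filter fun φ => ∀ a ∈ A,
        φ a ∈ (univ : Finset (Psi q L)).filter fun ψ => 8 * C + 8 ≤ hits (low q L s) B ψ).card : ℝ) ≤
      (Fintype.card (Fin (q ^ (3 ^ L)) → Psi q L) : ℝ) *
        (2 ^ (low q L s).card *
          (2 * C * Real.sqrt ((s : ℝ) / ((q ^ (3 ^ L) : ℕ) : ℝ))) ^ (8 * C + 8)) ^ s := by
  have hG := h2 q L (8 * C + 8) (low q L s) B
    (2 * C * Real.sqrt ((s : ℝ) / ((q ^ (3 ^ L) : ℕ) : ℝ))) hq (by positivity) (by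
      intro i hi
      have hi' : D q i ^ 2 * s ≤ q ^ (3 ^ L) := (mem_filter.1 hi).2
      have h3 := s_le q L i s hq i.2.le hi'
      have h4 : ((B.filter fun b => b.1 = i).card : ℝ) ≤ 2 * C * s := by
        have : (B.filter fun b => b.1 = i).card ≤ 2 * C * s := (card_filter_le _ _).trans hB
        exact_mod_cast this
      have h5 : (0 : ℝ) ≤ 2 * C := by positivity
      calc ((B.filter fun b => b.1 = i).card : ℝ) ≤ 2 * C * s := h4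
        _ ≤ 2 * C * (Real.sqrt ((s : ℝ) / ((q ^ (3 ^ L) : ℕ) : ℝ)) * M q L i) :=
          mul_le_mul_of_nonneg_left h3 h5
        _ = _ := by ring) (r_le q L C s hq hqC hs)
  have e1 : ((univ : Finset (Fin (q ^ (3 ^ L)) → Psi q L)).filter fun φ => ∀ a ∈ A,
        φ a ∈ (univ : Finset (Psi q L)).filter fun ψ => 8 * C + 8 ≤ hits (low q L s) B ψ).card =
      ((univ : Finset (Psi q L)).filter fun ψ => 8 * C + 8 ≤ hits (low q L s) B ψ).card ^ A.card *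
        Fintype.card (Psi q L) ^ (Fintype.card (Fin (q ^ (3 ^ L))) - A.card) := by
    have h := h1 A ((univ : Finset (Psi q L)).filter fun ψ => 8 * C + 8 ≤ hits (low q L s) B ψ)
    convert h
  rw [e1]
  obtain ⟨P, hP⟩ : ∃ P : ℝ, P = (Fintype.card (Psi q L) : ℝ) := ⟨_, rfl⟩
  obtain ⟨X, hX⟩ : ∃ X : ℝ, X = 2 ^ (low q L s).card *
          (2 * C * Real.sqrt ((s : ℝ) / ((q ^ (3 ^ L) : ℕ) : ℝ))) ^ (8 * C + 8) := ⟨_, rfl⟩
  rw [← hP, ← hX] at hG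
  rw [← hX, Nat.cast_mul, Nat.cast_pow, Nat.cast_pow, ← hP, hA]
  have hsn : s ≤ q ^ (3 ^ L) := by
    rw [← hA]
    exact (card_le_univ A).trans (le_of_eq (Fintype.card_fin _))
  have hP0 : 0 ≤ P := by
    rw [hP]
    exact Nat.cast_nonneg _
  have hcard : (Fintype.card (Fin (q ^ (3 ^ L)) → Psi q L) : ℝ) = P ^ s * P ^ (q ^ (3 ^ L) - s) := by
    rw [Fintype.card_fun, Fintype.card_fin, Nat.cast_pow, ← hP, ← pow_add, Nat.add_sub_cancel' hsn]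
  rw [hcard, Fintype.card_fin]
  calc _ ≤ (P * X) ^ s * P ^ (q ^ (3 ^ L) - s) :=
        mul_le_mul_of_nonneg_right (pow_le_pow_left₀ (Nat.cast_nonneg _) hG s) (pow_nonneg hP0 _)
    _ = P ^ s * P ^ (q ^ (3 ^ L) - s) * X ^ s := by
        rw [mul_pow]
        ring

open Classical in
/-- the choices which are bad for sets of size `s` -/
noncomputable def bs (q L C s : ℕ) : Finset (Fin (q ^ (3 ^ L)) → Psi q L) :=
  univ.filter fun φ => ∃ (A : Finset (Fin (q ^ (3 ^ L)))) (B : Finset (Lay q L)), A.card = s ∧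
    B.card ≤ 2 * C * s ∧ ∀ a ∈ A, 8 * C + 8 ≤ hits (low q L s) B (φ a)

theorem bs_card (h1 : S_F1) (h2 : S_F2) (h3 : S_F3) (C q L s : ℕ) (hq : 2 ≤ q) (hqC : 2 * C ≤ q)
    (hs1 : 1 ≤ s) (hs : q ^ 2 * s ≤ q ^ (3 ^ L))
    (h4 : ((((q ^ (3 ^ L) : ℕ) : ℝ) / s) ^ s * Real.exp s) *
      ((((q ^ (3 ^ L) : ℕ) : ℝ) / s) ^ (2 * C * s) * Real.exp s) *
      (2 ^ (low q L s).card * (2 * C * Real.sqrt ((s : ℝ) / ((q ^ (3 ^ L) : ℕ) : ℝ))) ^ (8 * C + 8)) ^ s ≤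
      (1 / 4 : ℝ) ^ s) :
    ((bs q L C s).card : ℝ) ≤ (Fintype.card (Fin (q ^ (3 ^ L)) → Psi q L) : ℝ) * (1 / 4) ^ s := by
  classical
  have hsn : s ≤ q ^ (3 ^ L) := by
    refine le_trans ?_ hs
    exact Nat.le_mul_of_pos_left s (Nat.pow_pos (by omega))
  obtain ⟨TA, hTA⟩ : ∃ TA : Finset (Finset (Fin (q ^ (3 ^ L)))),
      TA = univ.filter fun A => A.card = s := ⟨_, rfl⟩
  obtain ⟨TB, hTB⟩ : ∃ TB : Finset (Finset (Lay q L)),
      TB = univ.filter fun B => B.card ≤ 2 * C * s := ⟨_, rfl⟩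
  have hsub : bs q L C s ⊆ (TA ×ˢ TB).biUnion fun x =>
      (univ : Finset (Fin (q ^ (3 ^ L)) → Psi q L)).filter fun φ => ∀ a ∈ x.1,
        φ a ∈ (univ : Finset (Psi q L)).filter fun ψ => 8 * C + 8 ≤ hits (low q L s) x.2 ψ := by
    intro φ hφ
    obtain ⟨A, B, hA, hB, hAB⟩ := (mem_filter.1 hφ).2
    refine mem_biUnion.2 ⟨(A, B), ?_, ?_⟩
    · rw [mem_product, hTA, hTB]
      exact ⟨mem_filter.2 ⟨mem_univ _, hA⟩, mem_filter.2 ⟨mem_univ _, hB⟩⟩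
    · exact mem_filter.2 ⟨mem_univ _, fun a ha => mem_filter.2 ⟨mem_univ _, hAB a ha⟩⟩
  obtain ⟨Q, hQ⟩ : ∃ Q : ℝ, Q = (Fintype.card (Fin (q ^ (3 ^ L)) → Psi q L) : ℝ) := ⟨_, rfl⟩
  obtain ⟨Y, hY⟩ : ∃ Y : ℝ, Y = (2 ^ (low q L s).card *
      (2 * C * Real.sqrt ((s : ℝ) / ((q ^ (3 ^ L) : ℕ) : ℝ))) ^ (8 * C + 8)) ^ s := ⟨_, rfl⟩
  have hQ0 : 0 ≤ Q := by
    rw [hQ]
    exact Nat.cast_nonneg _
  have hY0 : 0 ≤ Y := by
    rw [hY]
    positivity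
  have hc1 : ((bs q L C s).card : ℝ) ≤ (TA.card : ℝ) * TB.card * (Q * Y) := by
    have h5 := (card_le_card hsub).trans card_biUnion_le
    have h6 : ((bs q L C s).card : ℝ) ≤ ∑ x ∈ TA ×ˢ TB,
        (((univ : Finset (Fin (q ^ (3 ^ L)) → Psi q L)).filter fun φ => ∀ a ∈ x.1,
        φ a ∈ (univ : Finset (Psi q L)).filter fun ψ => 8 * C + 8 ≤ hits (low q L s) x.2 ψ).card : ℝ) := by
      rw [← Nat.cast_sum]
      exact Nat.cast_le.2 h5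
    refine h6.trans ((sum_le_card_nsmul _ _ (Q * Y) fun x hx => ?_).trans (le_of_eq ?_))
    · obtain ⟨hx1, hx2⟩ := mem_product.1 hx
      rw [hTA] at hx1
      rw [hTB] at hx2
      rw [hQ, hY]
      exact bad_card h1 h2 C q L s (by omega) hqC x.1 x.2 (mem_filter.1 hx1).2 (mem_filter.1 hx2).2 hs
    · rw [card_product, nsmul_eq_mul, Nat.cast_mul]
  have hA : (TA.card : ℝ) ≤ (((q ^ (3 ^ L) : ℕ) : ℝ) / s) ^ s * Real.exp s := by
    have h5 := h3 (α := Fin (q ^ (3 ^ L))) (q ^ (3 ^ L)) s s hs1 hsn (le_of_eq (Fintype.card_fin _))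
    refine le_trans (Nat.cast_le.2 (card_le_card ?_)) h5
    rw [hTA]
    intro A hA
    exact mem_filter.2 ⟨mem_univ _, (mem_filter.1 hA).2.le⟩
  have hB : (TB.card : ℝ) ≤ (((q ^ (3 ^ L) : ℕ) : ℝ) / s) ^ (2 * C * s) * Real.exp s := by
    have h5 := h3 (α := Lay q L) (q ^ (3 ^ L)) s (2 * C * s) hs1 hsn (card_Lay q L hq)
    rw [hTB]
    exact h5
  rw [← hY] at h4
  rw [← hQ]
  calc ((bs q L C s).card : ℝ) ≤ (TA.card : ℝ) * TB.card * (Q * Y) := hc1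
    _ ≤ ((((q ^ (3 ^ L) : ℕ) : ℝ) / s) ^ s * Real.exp s) *
        ((((q ^ (3 ^ L) : ℕ) : ℝ) / s) ^ (2 * C * s) * Real.exp s) * (Q * Y) :=
        mul_le_mul_of_nonneg_right (mul_le_mul hA hB (Nat.cast_nonneg _) (by positivity))
          (mul_nonneg hQ0 hY0)
    _ = Q * (((((q ^ (3 ^ L) : ℕ) : ℝ) / s) ^ s * Real.exp s) *
        ((((q ^ (3 ^ L) : ℕ) : ℝ) / s) ^ (2 * C * s) * Real.exp s) * Y) := by ring
    _ ≤ Q * (1 / 4) ^ s := mul_le_mul_of_nonneg_left h4 hQ0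

theorem bs_empty (C q L s : ℕ) (hq : 1 ≤ q) (hs1 : 1 ≤ s) (hs : ¬ q ^ 2 * s ≤ q ^ (3 ^ L)) :
    bs q L C s = ∅ := by
  classical
  have hlow : low q L s = ∅ := by
    unfold low
    rw [filter_eq_empty_iff]
    intro i _ hi
    refine hs (le_trans ?_ hi)
    exact Nat.mul_le_mul_right _ (Nat.pow_le_pow_left (D_ge_q q i hq) 2)
  unfold bs
  rw [filter_eq_empty_iff]
  rintro φ - ⟨A, B, hA, -, hAB⟩
  have hne : A.Nonempty := card_pos.1 (by omega)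
  obtain ⟨a, ha⟩ := hne
  have h := hAB a ha
  rw [hlow] at h
  simp [hits] at h

theorem t_F5 (h1 : S_F1) (h2 : S_F2) (h3 : S_F3) (h4 : S_F4) : S_F5 := by
  classical
  intro C hC
  obtain ⟨q₁, hq₁⟩ := h4 C hC
  refine ⟨max q₁ (max (2 * C) 2), fun q L hq hL => ?_⟩
  have hqq : q₁ ≤ q := (le_max_left _ _).trans hq
  have hqC : 2 * C ≤ q := (le_max_left _ _).trans ((le_max_right _ _).trans hq)
  have hq2 : 2 ≤ q := (le_max_right _ _).trans ((le_max_right _ _).trans hq)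
  by_contra hcon
  have hcon' : ∀ φ : Fin (q ^ (3 ^ L)) → Psi q L, ¬ Good q L C (8 * C + 8) φ := fun φ h => hcon ⟨φ, h⟩
  have hcov : (univ : Finset (Fin (q ^ (3 ^ L)) → Psi q L)) ⊆
      (Icc 1 (q ^ (3 ^ L))).biUnion (bs q L C) := by
    intro φ _
    have h := hcon' φ
    unfold Good at h
    push Not at h
    obtain ⟨A, B, hA, hB, hAB⟩ := h
    refine mem_biUnion.2 ⟨A.card, ?_, ?_⟩
    · rw [mem_Icc]
      exact ⟨card_pos.2 hA, (card_le_univ A).trans (le_of_eq (Fintype.card_fin _))⟩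
    · exact mem_filter.2 ⟨mem_univ _, A, B, rfl, hB, hAB⟩
  obtain ⟨Q, hQ⟩ : ∃ Q : ℝ, Q = (Fintype.card (Fin (q ^ (3 ^ L)) → Psi q L) : ℝ) := ⟨_, rfl⟩
  have hpos : 0 < Q := by
    rw [hQ, Nat.cast_pos, Fintype.card_pos_iff]
    refine ⟨fun _ i => ⟨0, ?_⟩⟩
    unfold M
    exact Nat.pow_pos (by omega)
  have hle : Q ≤ ∑ s ∈ Icc 1 (q ^ (3 ^ L)), Q * (1 / 4) ^ s := by
    have h5 := (card_le_card hcov).trans card_biUnion_le
    rw [card_univ] at h5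
    have h6 : Q ≤ ∑ s ∈ Icc 1 (q ^ (3 ^ L)), ((bs q L C s).card : ℝ) := by
      rw [hQ, ← Nat.cast_sum]
      exact Nat.cast_le.2 h5
    refine h6.trans (sum_le_sum fun s hs => ?_)
    have hs1 := (mem_Icc.1 hs).1
    by_cases h7 : q ^ 2 * s ≤ q ^ (3 ^ L)
    · rw [hQ]
      exact bs_card h1 h2 h3 C q L s hq2 hqC hs1 h7 (hq₁ q L s hqq hs1 h7)
    · rw [bs_empty C q L s (by omega) hs1 h7, card_empty, Nat.cast_zero]
      positivity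
  rw [← mul_sum, quarter_sum] at hle
  have h8 : (0 : ℝ) ≤ (1 / 4) ^ (q ^ (3 ^ L)) := by positivity
  have h9 : Q * ((1 - (1 / 4) ^ (q ^ (3 ^ L))) / 3) ≤ Q * (1 / 3) := by
    refine mul_le_mul_of_nonneg_left ?_ hpos.le
    linarith
  linarith

end Pool.Agent.N645.SQ
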